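import Pool.Agent.H44.DV.Targets

/-!
# Shifting the sequence of sides
-/

set_option autoImplicit false

namespace Pool.Agent.H14.DV

open Pool.Agent.H44.DU Pool.Agent.H44.DU.Surf

lemma xi_div_real (t : ℝ) (z : ℂ) (a : ℝ) : xi t (z / (a : ℂ)) = xi t z / a := by
  simp only [xi, Complex.div_ofReal_re, Complex.div_ofReal_im]; ring

lemma key {n : ℕ} (S : Surf n) (t : ℝ) (w v : List (Side n)) (c : Side n) :
    xi t (S.dev v c) = S.g t w (xi t (S.dev (w ++ v) c)) := by
  have h1 : S.A w ≠ 0 := (S.A_pos w).ne'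
  have h2 : S.A v ≠ 0 := (S.A_pos v).ne'
  simp only [dev, g, xi_div_real, xi_sub, B_append, A_append, xi_add, xi_mul]
  field_simp
  ring

lemma wd_add {n : ℕ} (W : ℕ → Side n) (m j : ℕ) :
    wd W (m + j) = wd W m ++ wd (fun i => W (m + i)) j := by
  simp only [wd, List.range_add, List.map_append, List.map_map]
  rfl

theorem pf_SH : D_SH := by
  intro n S t W m j
  refine ⟨?_, ?_, wd_add W m j⟩
  · unfold rc
    rw [wd_add W m j]
    exact key S t _ _ _
  · unfold lc
    rw [wd_add W m j]
    exact key S t _ _ _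

end Pool.Agent.H14.DV
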